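import Pool.Agent.TH603.SX.Defs
import Pool.Agent.TH603.Cut.FlatE

/-!
# Flattening in the direction `(-v, u)` onto rows
-/

set_option autoImplicit false

namespace Pool.Agent.TH603.SX

open Finset Pool.Agent.TH176.Nag Pool.Agent.TH603.Sur Pool.Agent.TH603.Cut

/-- emptiness by flattening onto rows, `S` convex in the direction `(-v, u)` -/
theorem Emp_flatrows {S : Set (ℤ × ℤ)} {u v : ℤ} (huv : IsCoprime u v)
    (hconv : ∀ (p : ℤ × ℤ) (k T : ℕ), k ≤ T → p ∈ S → ((p.1 - v * T, p.2 + u * T) : ℤ × ℤ) ∈ S →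
      ((p.1 - v * k, p.2 + u * k) : ℤ × ℤ) ∈ S)
    {r m q : ℕ} (hq : 1 ≤ q)
    (hqr : q ≤ r) (hfin : ∀ T : ℕ, (RT S u v T).Finite)
    (h1 : ∀ T : ℕ, T < m → (RT S u v T).ncard + q + r * T ≤ r * m)
    (h2 : (RT S u v m).ncard ≤ q * m) (h3 : ∀ T : ℕ, m < T → RT S u v T = ∅) :
    Emp (fun _ : Fin r => m) S := by
  obtain ⟨a, b, hab⟩ := huv
  have hqr' : (q : ℝ) ≤ r := by exact_mod_cast hqr
  have hq' : (1 : ℝ) ≤ q := by exact_mod_cast hq
  refine Emp_flat (S' := {p : ℤ × ℤ | 0 ≤ p.2 ∧ p.1 ∈ RT S u v p.2.toNat}) u v a b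
    (by linear_combination hab) ?_ ?_
  · intro p T k hp hpT hk
    obtain ⟨T', rfl⟩ := Int.eq_ofNat_of_zero_le (show 0 ≤ T by omega)
    refine ⟨by simp, ?_⟩
    show u * p.1 + v * p.2 ∈ RT S u v ((k : ℤ).toNat)
    rw [Int.toNat_natCast]
    exact ⟨p, hp, hconv p k T' (by omega) hp hpT, rfl⟩
  · refine Emp_spread (n' := (r : ℝ)) (Z' := (r : ℝ) * m) (σ := r - q) ?_ (J := m)
      (ρ := fun T => ((RT S u v T).ncard : ℝ)) (fun p hp => hp.1) ?_ ?_ ?_ ?_ ?_
    · rw [Nat.cast_sub hqr]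
      linarith
    · intro j B hB
      have hsub : (↑B : Set ℤ) ⊆ RT S u v j := by
        intro c hc
        have h := (hB c hc).2
        simpa using h
      have h := Set.ncard_le_ncard hsub (hfin j)
      rw [Set.ncard_coe_finset] at h
      exact_mod_cast h
    · intro j hj
      have h := h1 j hj
      have h' : ((RT S u v j).ncard : ℝ) + q + r * j ≤ r * m := by exact_mod_cast h
      rw [Nat.cast_sub hqr]
      linarith
    · have h' : ((RT S u v m).ncard : ℝ) ≤ q * m := by exact_mod_cast h2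
      rw [Nat.cast_sub hqr]
      linarith
    · intro j hj
      show ((RT S u v j).ncard : ℝ) < 1
      rw [h3 j hj, Set.ncard_empty]
      norm_num
    · refine (Emp_rows (fun _ : Fin r => m) 0).mono ?_
      rintro ⟨x, y⟩ ⟨g1, g2, g3⟩
      simp only at g1 g2 g3
      have g4 : x + 1 + (r : ℤ) * y ≤ (r : ℤ) * m := by exact_mod_cast g3
      obtain ⟨y', rfl⟩ := Int.eq_ofNat_of_zero_le g2
      have hy : y' < m := by
        by_contra hcon
        have h5 : (m : ℤ) ≤ y' := by omega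
        have h6 : (r : ℤ) * m ≤ r * y' := mul_le_mul_of_nonneg_left h5 (Int.natCast_nonneg r)
        omega
      refine ⟨g2, g1, ?_⟩
      simp only [Int.toNat_natCast, sum_const, card_univ, Fintype.card_fin, smul_eq_mul]
      rw [Nat.cast_mul, Nat.cast_sub hy.le]
      linarith

/-- independence by flattening onto rows, `S` convex in the direction `(-v, u)` -/
theorem Sur_flatrows {S : Set (ℤ × ℤ)} {u v : ℤ} (huv : IsCoprime u v) {r m : ℕ}
    (hconv : ∀ (p : ℤ × ℤ) (k T : ℕ), k ≤ T → p ∈ S → ((p.1 - v * T, p.2 + u * T) : ℤ × ℤ) ∈ S →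
      ((p.1 - v * k, p.2 + u * k) : ℤ × ℤ) ∈ S)
    (hfin : ∀ T : ℕ, (RT S u v T).Finite)
    (h1 : ∀ T : ℕ, T < m → r * (m - T) ≤ (RT S u v T).ncard) :
    Sur (fun _ : Fin r => m) S := by
  obtain ⟨a, b, hab⟩ := huv
  refine Sur_slabs (S' := {p : ℤ × ℤ | 0 ≤ p.1 ∧ 0 ≤ p.2 ∧
    p.1 < ((RT S u v p.2.toNat).ncard : ℤ)}) u v a b (by linear_combination hab) ?_ ?_
  · rintro ⟨x, y⟩ ⟨g1, g2, g3⟩
    simp only at g1 g2 g3
    obtain ⟨T, rfl⟩ := Int.eq_ofNat_of_zero_le g2
    rw [Int.toNat_natCast] at g3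
    refine ⟨g1, g2, (hfin T).toFinset, ?_, ?_⟩
    · rw [← Set.ncard_eq_toFinset_card (RT S u v T) (hfin T)]
      exact g3
    · intro c hc
      rw [Set.Finite.mem_toFinset] at hc
      obtain ⟨p, hp, hpT, hpc⟩ := hc
      refine ⟨-b * p.1 + a * p.2, fun s hs1 hs2 => ?_⟩
      obtain ⟨k, hk⟩ := Int.eq_ofNat_of_zero_le (show 0 ≤ s - (-b * p.1 + a * p.2) by linarith)
      have hkT : k ≤ T := by
        simp only at hs2
        omega
      have h := hconv p k T hkT hp hpT
      have e1 : a * c - v * s = p.1 - v * k := by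
        have hs : s = -b * p.1 + a * p.2 + k := by linarith
        rw [hs, ← hpc]
        linear_combination p.1 * hab
      have e2 : b * c + u * s = p.2 + u * k := by
        have hs : s = -b * p.1 + a * p.2 + k := by linarith
        rw [hs, ← hpc]
        linear_combination p.2 * hab
      rw [e1, e2]
      exact h
  · refine Sur_rows _ 0 ?_
    intro k j hj
    simp only [sum_const, card_univ, Fintype.card_fin, smul_eq_mul] at hj
    have hk : k < m := by
      by_contra hcon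
      rw [Nat.sub_eq_zero_of_le (not_lt.1 hcon), mul_zero] at hj
      omega
    have h := h1 k hk
    refine ⟨by simp, by simp, ?_⟩
    simp only [Int.toNat_natCast, zero_add]
    exact_mod_cast lt_of_lt_of_le hj h

end Pool.Agent.TH603.SX
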