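import Pool.Agent.TH603.SX.Defs
set_option autoImplicit false

namespace Pool.Agent.TH603.SX

open Finset

/-! ### C. counting -/

theorem c_zz_shift (τ : ℝ) (d : ℕ) (j s : ℤ) : zz τ d (j + s) = zz τ d j + 3 * (1 + τ) * (s : ℝ) := by
  unfold zz
  push_cast
  ring

/-- the left ends increase faster than the points of a line of direction `(-v, u)` -/
theorem c_lo_mono {τ : ℝ} {d e u : ℕ} {v : ℤ}
    (hK : 9 * (u : ℝ) + 1 ≤ 3 * (1 + τ) * u + v) (j : ℤ) (k T : ℕ) (hkT : k ≤ T) :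
    lo τ d e (j + u * k) + v * k ≤ lo τ d e (j + u * T) + v * T := by
  unfold lo
  have hu : (0 : ℤ) ≤ u := Int.natCast_nonneg u
  have hkT' : (k : ℤ) ≤ T := by exact_mod_cast hkT
  have hkTr : (k : ℝ) ≤ T := by exact_mod_cast hkT
  have h1 : ⌈zz τ d (j + u * k)⌉ + v * k + (u : ℤ) * ((T : ℤ) - k) ≤
      ⌈zz τ d (j + u * T)⌉ + v * T := by
    have e1 : ⌈zz τ d (j + u * k)⌉ ≤ ⌈zz τ d (j + u * T)⌉ + v * T - v * k
        - (u : ℤ) * ((T : ℤ) - k) := by
      rw [Int.ceil_le]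
      have e2 := Int.le_ceil (zz τ d (j + u * T))
      generalize ⌈zz τ d (j + u * T)⌉ = c at e2 ⊢
      rw [c_zz_shift] at e2 ⊢
      push_cast at e2 ⊢
      have hur : (0 : ℝ) ≤ u := Nat.cast_nonneg u
      have e3 : 0 ≤ (3 * (1 + τ) * u + v - u) * ((T : ℝ) - k) := by
        apply mul_nonneg
        · nlinarith
        · linarith
      nlinarith
    linarith
  have h2 : max 0 ((e : ℤ) - (j + u * k)) ≤ max 0 ((e : ℤ) - (j + u * T)) +
      (u : ℤ) * ((T : ℤ) - k) := by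
    have e4 : 0 ≤ (u : ℤ) * ((T : ℤ) - k) := mul_nonneg hu (by linarith)
    have e5 := le_max_left (0 : ℤ) ((e : ℤ) - (j + u * T))
    have e6 := le_max_right (0 : ℤ) ((e : ℤ) - (j + u * T))
    apply max_le
    · linarith
    · nlinarith
  linarith

/-- the right ends increase faster than the points of a line of direction `(-v, u)` -/
theorem c_hi_mono {τ : ℝ} {d u : ℕ} {v : ℤ}
    (hK : 9 * (u : ℝ) + 1 ≤ 3 * (1 + τ) * u + v) (j : ℤ) (k : ℕ) :
    hi τ d j ≤ hi τ d (j + u * k) + v * k := by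
  unfold hi
  have e1 : ⌊zz τ d j⌋ + 9 * ((u : ℤ) * k) - v * k ≤ ⌊zz τ d (j + u * k)⌋ := by
    rw [Int.le_floor]
    have e2 := Int.floor_le (zz τ d j)
    rw [c_zz_shift]
    push_cast
    have e3 : 0 ≤ (3 * (1 + τ) * u + v - 9 * u) * (k : ℝ) := by
      apply mul_nonneg
      · linarith
      · exact Nat.cast_nonneg k
    nlinarith
  linarith

-- C1
theorem QQ_conv {τ : ℝ} (h0 : 0 < τ) (h1 : τ < 1) {d e u : ℕ} {v : ℤ}
    (hK : 9 * (u : ℝ) + 1 ≤ 3 * (1 + τ) * u + v) (p : ℤ × ℤ) (k T : ℕ) (hkT : k ≤ T)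
    (hp : p ∈ QQ τ d e) (hp' : ((p.1 - v * T, p.2 + u * T) : ℤ × ℤ) ∈ QQ τ d e) :
    ((p.1 - v * k, p.2 + u * k) : ℤ × ℤ) ∈ QQ τ d e := by
  obtain ⟨a1, a2, a3⟩ := hp
  obtain ⟨b1, b2, b3⟩ := hp'
  simp only at b1 b2 b3
  refine ⟨?_, ?_, ?_⟩
  · have : (0 : ℤ) ≤ (u : ℤ) * k := by positivity
    show 0 ≤ p.2 + u * k
    linarith
  · show lo τ d e (p.2 + u * k) ≤ p.1 - v * k
    have := c_lo_mono (d := d) (e := e) hK p.2 k T hkT
    linarith
  · show p.1 - v * k ≤ hi τ d (p.2 + u * k)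
    have := c_hi_mono (d := d) hK p.2 k
    linarith

/-- the pairs of points of `QQ` at distance `T` in the direction `(-v, u)` -/
def cQT (S : Set (ℤ × ℤ)) (u v : ℤ) (T : ℕ) : Set (ℤ × ℤ) :=
  {p | p ∈ S ∧ ((p.1 - v * T, p.2 + u * T) : ℤ × ℤ) ∈ S}

theorem c_QT_iff {τ : ℝ} {d e u : ℕ} {v : ℤ}
    (hK : 9 * (u : ℝ) + 1 ≤ 3 * (1 + τ) * u + v) (T : ℕ) (p : ℤ × ℤ) :
    p ∈ cQT (QQ τ d e) u v T ↔ (0 ≤ p.2 ∧ 3 * p.2 ≤ d) ∧
      lo τ d e (p.2 + u * T) + v * T ≤ p.1 ∧ p.1 ≤ hi τ d p.2 := by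
  constructor
  · rintro ⟨⟨a1, a2, a3⟩, b1, b2, b3⟩
    simp only at b1 b2 b3
    refine ⟨⟨a1, ?_⟩, by linarith, a3⟩
    unfold lo at a2
    unfold hi at a3
    have e1 := Int.floor_le_ceil (zz τ d p.2)
    have e2 := le_max_left (0 : ℤ) ((e : ℤ) - p.2)
    linarith
  · rintro ⟨⟨a1, -⟩, a2, a3⟩
    have e1 := c_lo_mono (d := d) (e := e) hK p.2 0 T (Nat.zero_le _)
    have e2 := c_hi_mono (d := d) hK p.2 T
    have e0 : p.2 + (u : ℤ) * ((0 : ℕ) : ℤ) = p.2 := by simp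
    rw [e0] at e1
    have e3 : v * ((0 : ℕ) : ℤ) = 0 := by simp
    rw [e3] at e1
    refine ⟨⟨a1, by linarith, a3⟩, ?_, ?_, ?_⟩
    · have : (0 : ℤ) ≤ (u : ℤ) * T := by positivity
      show 0 ≤ p.2 + u * T
      linarith
    · show lo τ d e (p.2 + u * T) ≤ p.1 - v * T
      linarith
    · show p.1 - v * T ≤ hi τ d (p.2 + u * T)
      linarith

/-- the finite set of the pairs of points at distance `T` -/
noncomputable def cQF (τ : ℝ) (d e u : ℕ) (v : ℤ) (T : ℕ) : Finset (ℤ × ℤ) :=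
  (range (d / 3 + 1)).biUnion fun j =>
    (Icc (lo τ d e ((j : ℤ) + u * T) + v * T) (hi τ d j)).image fun x => (x, (j : ℤ))

theorem c_QF_card (τ : ℝ) (d e u : ℕ) (v : ℤ) (T : ℕ) : (cQF τ d e u v T).card = NT τ d e u v T := by
  unfold cQF NT
  rw [card_biUnion]
  · refine sum_congr rfl fun j _ => ?_
    rw [card_image_of_injective _ (fun x y h => by simpa using h), Int.card_Icc]
    congr 1
    ring
  · intro i _ j _ hij
    rw [Function.onFun, disjoint_left]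
    rintro p hp hp'
    simp only [mem_image, mem_Icc] at hp hp'
    obtain ⟨x, -, rfl⟩ := hp
    obtain ⟨y, -, hy⟩ := hp'
    apply hij
    have := congrArg Prod.snd hy
    simp only at this
    exact_mod_cast this.symm

theorem c_coe_QF {τ : ℝ} {d e u : ℕ} {v : ℤ}
    (hK : 9 * (u : ℝ) + 1 ≤ 3 * (1 + τ) * u + v) (T : ℕ) :
    (cQF τ d e u v T : Set (ℤ × ℤ)) = cQT (QQ τ d e) u v T := by
  ext p
  rw [c_QT_iff hK]
  unfold cQF
  rw [mem_coe, mem_biUnion]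
  constructor
  · rintro ⟨j, hj, hp⟩
    rw [mem_image] at hp
    obtain ⟨x, hx, rfl⟩ := hp
    rw [mem_Icc] at hx
    rw [mem_range] at hj
    refine ⟨⟨Int.natCast_nonneg j, ?_⟩, hx.1, hx.2⟩
    show 3 * (j : ℤ) ≤ d
    omega
  · rintro ⟨⟨a1, a2⟩, a3, a4⟩
    obtain ⟨j, hj⟩ := Int.eq_ofNat_of_zero_le a1
    refine ⟨j, ?_, ?_⟩
    · rw [mem_range]
      omega
    · rw [mem_image]
      rw [hj] at a3 a4
      refine ⟨p.1, mem_Icc.2 ⟨a3, a4⟩, ?_⟩
      ext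
      · rfl
      · exact hj.symm

/-- C2 for a general set: the lowest points of the lines -/
theorem c_RT_bij {τ : ℝ} (h0 : 0 < τ) (h1 : τ < 1) {d e u : ℕ} (hu : 1 ≤ u)
    {v : ℤ} (hK : 9 * (u : ℝ) + 1 ≤ 3 * (1 + τ) * u + v) (T : ℕ) :
    RT (QQ τ d e) u v T = (fun p : ℤ × ℤ => (u : ℤ) * p.1 + v * p.2) ''
      (cQT (QQ τ d e) u v T \ cQT (QQ τ d e) u v (T + 1)) := by
  ext c
  constructor
  · rintro ⟨p, hp, hp', hc⟩
    -- the highest point of the line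
    have key : ∀ (n : ℕ) (q : ℤ × ℤ), q ∈ cQT (QQ τ d e) u v T → (u : ℤ) * q.1 + v * q.2 = c →
        (d : ℤ) - q.2 < n → ∃ q' ∈ cQT (QQ τ d e) u v T \ cQT (QQ τ d e) u v (T + 1),
          (u : ℤ) * q'.1 + v * q'.2 = c := by
      intro n
      induction n with
      | zero =>
        intro q hq hqc hn
        have := ((c_QT_iff hK T q).1 hq).1
        push_cast at hn
        omega
      | succ n ih =>
        intro q hq hqc hn
        by_cases hq1 : q ∈ cQT (QQ τ d e) u v (T + 1)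
        · have hstep : ((q.1 - v, q.2 + u) : ℤ × ℤ) ∈ cQT (QQ τ d e) u v T := by
            obtain ⟨c1, c2⟩ := hq1
            refine ⟨?_, ?_⟩
            · have := QQ_conv h0 h1 hK q 1 (T + 1) (by omega) c1 (by exact_mod_cast c2)
              simpa using this
            · have e1 : (((q.1 - v, q.2 + u) : ℤ × ℤ).1 - v * T,
                  ((q.1 - v, q.2 + u) : ℤ × ℤ).2 + u * T) =
                  ((q.1 - v * ((T + 1 : ℕ) : ℤ), q.2 + u * ((T + 1 : ℕ) : ℤ)) : ℤ × ℤ) := by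
                ext
                · push_cast; ring
                · push_cast; ring
              rw [e1]
              exact_mod_cast c2
          refine ih _ hstep ?_ ?_
          · rw [← hqc]; ring
          · push_cast at hn ⊢
            have : (1 : ℤ) ≤ u := by exact_mod_cast hu
            show (d : ℤ) - (q.2 + u) < n
            linarith
        · exact ⟨q, ⟨hq, hq1⟩, hqc⟩
    obtain ⟨q', hq', hqc'⟩ := key ((d : ℤ) - p.2 + 1).toNat p ⟨hp, hp'⟩ hc (by omega)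
    exact ⟨q', hq', hqc'⟩
  · rintro ⟨p, ⟨hp, -⟩, hc⟩
    exact ⟨p, hp.1, hp.2, hc⟩

theorem c_RT_inj {τ : ℝ} (h0 : 0 < τ) (h1 : τ < 1) {d e u : ℕ} (hu : 1 ≤ u)
    {v : ℤ} (huv : IsCoprime (u : ℤ) v) (hK : 9 * (u : ℝ) + 1 ≤ 3 * (1 + τ) * u + v) (T : ℕ) :
    Set.InjOn (fun p : ℤ × ℤ => (u : ℤ) * p.1 + v * p.2)
      (cQT (QQ τ d e) u v T \ cQT (QQ τ d e) u v (T + 1)) := by
  -- one of the two points is the higher one
  have main : ∀ (p q : ℤ × ℤ), p ∈ cQT (QQ τ d e) u v T \ cQT (QQ τ d e) u v (T + 1) →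
      q ∈ cQT (QQ τ d e) u v T → (u : ℤ) * p.1 + v * p.2 = (u : ℤ) * q.1 + v * q.2 →
      q.2 ≤ p.2 := by
    rintro p q ⟨hp, hp1⟩ hq hpq
    by_contra hlt
    push Not at hlt
    have hdvd : (u : ℤ) ∣ (q.2 - p.2) := by
      have e1 : v * (q.2 - p.2) = u * (p.1 - q.1) := by linarith
      exact huv.dvd_of_dvd_mul_left ⟨p.1 - q.1, e1⟩
    obtain ⟨k, hk⟩ := hdvd
    have hu' : (1 : ℤ) ≤ u := by exact_mod_cast hu
    have hkpos : 1 ≤ k := by
      by_contra hcon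
      push Not at hcon
      have : (u : ℤ) * k ≤ 0 := mul_nonpos_of_nonneg_of_nonpos (by linarith) (by linarith)
      linarith
    have hx : q.1 = p.1 - v * k := by
      have e2 : (u : ℤ) * q.1 = u * (p.1 - v * k) := by
        have : q.2 = p.2 + u * k := by linarith
        rw [this] at hpq
        linarith
      exact mul_left_cancel₀ (by linarith) e2
    obtain ⟨n, hn⟩ := Int.eq_ofNat_of_zero_le (show 0 ≤ k by linarith)
    have hn1 : 1 ≤ n := by omega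
    apply hp1
    refine ⟨hp.1, ?_⟩
    have h3 := QQ_conv h0 h1 hK p (T + 1) (n + T) (by omega) hp.1 (by
      have e1 : ((p.1 - v * ((n + T : ℕ) : ℤ), p.2 + u * ((n + T : ℕ) : ℤ)) : ℤ × ℤ) =
          (q.1 - v * T, q.2 + u * T) := by
        have hy : q.2 = p.2 + u * k := by linarith
        rw [hx, hy, hn]
        ext
        · push_cast; ring
        · push_cast; ring
      rw [e1]
      exact hq.2)
    exact_mod_cast h3
  intro p hp q hq hpq
  simp only at hpq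
  have h2 : p.2 = q.2 := le_antisymm (main q p hq hp.1 hpq.symm) (main p q hp hq.1 hpq)
  ext
  · have hu' : (1 : ℤ) ≤ u := by exact_mod_cast hu
    rw [h2] at hpq
    have : (u : ℤ) * p.1 = u * q.1 := by linarith
    exact mul_left_cancel₀ (by linarith) this
  · exact h2

theorem c_QT_succ {τ : ℝ} (h0 : 0 < τ) (h1 : τ < 1) {d e u : ℕ}
    {v : ℤ} (hK : 9 * (u : ℝ) + 1 ≤ 3 * (1 + τ) * u + v) (T : ℕ) :
    cQT (QQ τ d e) u v (T + 1) ⊆ cQT (QQ τ d e) u v T := by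
  rintro p ⟨hp, hp'⟩
  exact ⟨hp, QQ_conv h0 h1 hK p T (T + 1) (by omega) hp hp'⟩

-- C2
theorem RT_card {τ : ℝ} (h0 : 0 < τ) (h1 : τ < 1) (hirr : Irrational τ) {d e u : ℕ} (hu : 1 ≤ u)
    {v : ℤ} (huv : IsCoprime (u : ℤ) v) (hK : 9 * (u : ℝ) + 1 ≤ 3 * (1 + τ) * u + v) (T : ℕ) :
    (RT (QQ τ d e) u v T).Finite ∧
      (RT (QQ τ d e) u v T).ncard + NT τ d e u v (T + 1) = NT τ d e u v T := by
  have hfin : ∀ T : ℕ, (cQT (QQ τ d e) u v T).Finite := by
    intro T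
    rw [← c_coe_QF hK T]
    exact finite_toSet _
  have hcard : ∀ T : ℕ, (cQT (QQ τ d e) u v T).ncard = NT τ d e u v T := by
    intro T
    rw [← c_coe_QF hK T, Set.ncard_coe_finset, c_QF_card]
  have hRT := c_RT_bij h0 h1 (d := d) (e := e) hu hK T
  refine ⟨?_, ?_⟩
  · rw [hRT]
    exact ((hfin T).sdiff).image _
  · rw [hRT, (c_RT_inj h0 h1 hu huv hK T).ncard_image, ← hcard, ← hcard]
    exact Set.ncard_sdiff_add_ncard_of_subset (c_QT_succ h0 h1 hK T) (hfin T)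

end Pool.Agent.TH603.SX
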