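import Mathlib

set_option autoImplicit false

/-! Piece D0: sums of fractional parts along a rotation by `k + (1 + η) / s`. -/

namespace Pool.Agent.TH603.SX

open Finset

namespace D0

/-- the sum of the integer quotients over a full period -/
theorem sum_ediv {P : ℕ} (hP : 1 ≤ P) (N : ℤ) : ∑ s ∈ range P, (N + s) / (P : ℤ) = N := by
  have hstep : ∀ M : ℤ, ∑ s ∈ range P, (M + 1 + s) / (P : ℤ) = ∑ s ∈ range P, (M + s) / (P : ℤ) + 1 := by
    intro M
    have h1 : ∑ s ∈ range (P + 1), (M + s) / (P : ℤ) = ∑ s ∈ range P, (M + 1 + s) / (P : ℤ) + M / P := by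
      rw [sum_range_succ']
      congr 1
      · refine sum_congr rfl fun s _ => ?_
        congr 1
        push_cast
        ring
      · simp
    rw [sum_range_succ] at h1
    have h2 : (M + P) / (P : ℤ) = M / P + 1 := by
      rw [Int.add_ediv_of_dvd_right (dvd_refl _), Int.ediv_self (by exact_mod_cast (by omega : P ≠ 0))]
    linarith
  induction N using Int.induction_on with
  | zero =>
    apply sum_eq_zero
    intro s hs
    rw [mem_range] at hs
    rw [zero_add]
    exact Int.ediv_eq_zero_of_lt (by positivity) (by exact_mod_cast hs)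
  | succ N ih => rw [hstep, ih]
  | pred N ih =>
    have := hstep (-(N : ℤ) - 1)
    rw [show -(N : ℤ) - 1 + 1 = -N by ring, ih] at this
    linarith

/-- Hermite's identity -/
theorem hermite {P : ℕ} (hP : 1 ≤ P) (x : ℝ) : ∑ s ∈ range P, ⌊x + s / P⌋ = ⌊P * x⌋ := by
  have hP0 : (P : ℝ) ≠ 0 := by exact_mod_cast (by omega : P ≠ 0)
  rw [← sum_ediv hP ⌊P * x⌋]
  refine sum_congr rfl fun s _ => ?_
  have h1 : x + s / P = (P * x + (s : ℤ)) / P := by
    field_simp
    push_cast
    ring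
  rw [h1, Int.floor_div_natCast, Int.floor_add_intCast]

theorem sum_lin (s : ℕ) (b : ℝ) : ∑ i ∈ range s, b * (i : ℝ) = b * (s * (s - 1) / 2) := by
  induction s with
  | zero => simp
  | succ s ih =>
    rw [sum_range_succ, ih]
    push_cast
    ring

/-- one block -/
theorem block {s : ℕ} (hs : 1 ≤ s) {η : ℝ} (hη0 : 0 ≤ η) (hη : η * s ≤ 1) (x : ℝ) :
    |∑ i ∈ range s, (Int.fract (x + (1 + η) / s * i) - 1 / 2)| ≤ 2 := by
  have hs1 : (1 : ℝ) ≤ s := by exact_mod_cast hs
  have hs0 : (0 : ℝ) < s := by linarith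
  have hη1 : η ≤ 1 := by nlinarith
  have h1 : ∑ i ∈ range s, (Int.fract (x + (1 + η) / s * i) - 1 / 2) =
      s * x + (1 + η) * (s - 1) / 2 - s / 2 - ∑ i ∈ range s, (⌊x + (1 + η) / s * i⌋ : ℝ) := by
    have e : ∀ i ∈ range s, Int.fract (x + (1 + η) / s * i) - 1 / 2 =
        (x - 1 / 2) + (1 + η) / s * i - (⌊x + (1 + η) / s * i⌋ : ℝ) := by
      intro i _
      rw [Int.fract]
      ring
    rw [sum_congr rfl e, sum_sub_distrib, sum_add_distrib, sum_lin, sum_const, card_range,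
      nsmul_eq_mul]
    field_simp
    ring
  have hlow : (⌊s * x⌋ : ℝ) ≤ ∑ i ∈ range s, (⌊x + (1 + η) / s * i⌋ : ℝ) := by
    rw [← hermite hs x]
    push_cast
    refine sum_le_sum fun i _ => ?_
    have : ⌊x + (i : ℝ) / s⌋ ≤ ⌊x + (1 + η) / s * i⌋ := by
      refine Int.floor_le_floor ?_
      have : 0 ≤ η / s * i := by positivity
      have e : (1 + η) / s * i = i / s + η / s * i := by ring
      rw [e]
      linarith
    exact_mod_cast this
  have hup : ∑ i ∈ range s, (⌊x + (1 + η) / s * i⌋ : ℝ) ≤ (⌊s * (x + η)⌋ : ℝ) := by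
    rw [← hermite hs (x + η)]
    push_cast
    refine sum_le_sum fun i hi => ?_
    have : ⌊x + (1 + η) / s * i⌋ ≤ ⌊x + η + (i : ℝ) / s⌋ := by
      refine Int.floor_le_floor ?_
      have hi' : (i : ℝ) ≤ s := by
        rw [mem_range] at hi
        exact_mod_cast hi.le
      have h2 : (i : ℝ) / s ≤ 1 := (div_le_one hs0).2 hi'
      have e : (1 + η) / s * i = i / s + η * (i / s) := by ring
      rw [e]
      nlinarith
    exact_mod_cast this
  have hf1 := Int.lt_floor_add_one ((s : ℝ) * x)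
  have hf2 := Int.floor_le ((s : ℝ) * (x + η))
  rw [h1, abs_le]
  constructor <;> nlinarith

theorem fract_eq {s : ℕ} {μ η : ℝ} (k : ℤ) (hμ : μ = k + (1 + η) / s) (α : ℝ) (i : ℕ) :
    Int.fract (α + μ * i) = Int.fract (α + (1 + η) / s * i) := by
  rw [hμ, show α + ((k : ℝ) + (1 + η) / s) * i = α + (1 + η) / s * i + ((k * i : ℤ) : ℝ) by
    push_cast; ring, Int.fract_add_intCast]

theorem blocks {s : ℕ} (hs : 1 ≤ s) {η : ℝ} (hη0 : 0 ≤ η) (hη : η * s ≤ 1) (x : ℝ) (q : ℕ) :
    |∑ i ∈ range (s * q), (Int.fract (x + (1 + η) / s * i) - 1 / 2)| ≤ 2 * q := by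
  induction q with
  | zero => simp
  | succ q ih =>
    rw [Nat.mul_succ, sum_range_add]
    have h1 := block hs hη0 hη (x + (1 + η) / s * ((s * q : ℕ) : ℝ))
    have h2 : ∑ i ∈ range s, (Int.fract (x + (1 + η) / s * ((s * q + i : ℕ) : ℝ)) - 1 / 2) =
        ∑ i ∈ range s, (Int.fract (x + (1 + η) / s * ((s * q : ℕ) : ℝ) + (1 + η) / s * i) - 1 / 2) := by
      refine sum_congr rfl fun i _ => ?_
      congr 2
      push_cast
      ring
    rw [h2]
    refine (abs_add_le _ _).trans ?_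
    have h3 : 2 * ((q + 1 : ℕ) : ℝ) = 2 * q + 2 := by push_cast; ring
    rw [h3]
    exact add_le_add ih h1

end D0

open D0 in
theorem rot {s : ℕ} (hs : 1 ≤ s) {μ η : ℝ} (hη0 : 0 ≤ η) (hη : η * s ≤ 1) (k : ℤ)
    (hμ : μ = k + (1 + η) / s) (α : ℝ) (L : ℕ) :
    |∑ i ∈ range L, (Int.fract (α + μ * i) - 1 / 2)| ≤ 2 * (L : ℝ) / s + s := by
  have hs1 : (1 : ℝ) ≤ s := by exact_mod_cast hs
  have hs0 : (0 : ℝ) < s := by linarith
  have e1 : ∑ i ∈ range L, (Int.fract (α + μ * i) - 1 / 2) =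
      ∑ i ∈ range (s * (L / s) + L % s), (Int.fract (α + (1 + η) / s * i) - 1 / 2) := by
    rw [Nat.div_add_mod]
    exact sum_congr rfl fun i _ => by rw [fract_eq k hμ]
  rw [e1, sum_range_add]
  refine (abs_add_le _ _).trans ?_
  refine add_le_add ?_ ?_
  · refine (blocks hs hη0 hη α (L / s)).trans ?_
    have h1 : ((L / s : ℕ) : ℝ) ≤ L / s := Nat.cast_div_le
    have h2 : 2 * (L : ℝ) / s = 2 * (L / s) := by ring
    rw [h2]
    linarith
  · refine (abs_sum_le_sum_abs _ _).trans ?_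
    have h2 : ∑ i ∈ range (L % s), |Int.fract (α + (1 + η) / s * ((s * (L / s) + i : ℕ) : ℝ)) - 1 / 2| ≤
        ∑ _i ∈ range (L % s), (1 : ℝ) := by
      refine sum_le_sum fun i _ => ?_
      have h3 := Int.fract_nonneg (α + (1 + η) / s * ((s * (L / s) + i : ℕ) : ℝ))
      have h4 := Int.fract_lt_one (α + (1 + η) / s * ((s * (L / s) + i : ℕ) : ℝ))
      rw [abs_le]
      constructor <;> linarith
    refine h2.trans ?_
    rw [sum_const, card_range, nsmul_eq_mul, mul_one]
    have : L % s < s := Nat.mod_lt _ (by omega)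
    exact_mod_cast this.le

end Pool.Agent.TH603.SX
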