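import Pool.Agent.TH603.SX.Defs

set_option autoImplicit false

/-! D1: the exact value of `NT` (project SX of helper603; written by helper767). -/

namespace Pool.Agent.TH603.SX

open Finset

namespace D1

lemma zz_shift (τ : ℝ) (d u : ℕ) (v : ℤ) (K : ℝ) (hK : K = 3 * (1 + τ) * u + v) (j T : ℕ) :
    zz τ d ((j : ℤ) + u * T) = zz τ d j + (K - v) * T := by
  unfold zz
  push_cast
  rw [hK]
  ring

lemma fract_ne {τ : ℝ} (hirr : Irrational τ) (d : ℕ) (i : ℤ) (hi : (d : ℤ) ≠ 3 * i) :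
    Int.fract (zz τ d i) ≠ 0 := by
  intro h
  obtain ⟨z, hz⟩ := Int.fract_eq_zero_iff.1 h
  have h3 : ((d : ℤ) - 3 * i : ℤ) ≠ 0 := sub_ne_zero.2 hi
  have h4 : ((d : ℝ) - 3 * (i : ℝ)) ≠ 0 := by exact_mod_cast h3
  apply hirr
  refine ⟨-(z : ℚ) / ((d : ℚ) - 3 * (i : ℚ)) - 1, ?_⟩
  push_cast
  have h5 : -((1 + τ) * ((d : ℝ) - 3 * (i : ℝ))) = z := hz.symm
  rw [← h5, neg_neg, mul_div_assoc, div_self h4]
  ring

lemma sum_lin (E : ℝ) (m : ℕ) : ∑ j ∈ range m, (E - (j : ℝ)) = m * E - m * ((m : ℝ) - 1) / 2 := by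
  induction m with
  | zero => simp
  | succ m ih =>
    rw [sum_range_succ, ih]
    push_cast
    ring

lemma sum_max {E M : ℕ} (h : E ≤ M) :
    ∑ j ∈ range M, max 0 ((E : ℝ) - (j : ℝ)) = (E : ℝ) * ((E : ℝ) + 1) / 2 := by
  rw [← sum_subset (range_subset_range.2 h) (fun j _ hj => ?_)]
  · rw [sum_congr rfl (g := fun j : ℕ => (E : ℝ) - (j : ℝ)) (fun j hj => ?_), sum_lin]
    · ring
    · have : (j : ℝ) ≤ E := by exact_mod_cast (mem_range.1 hj).le
      exact max_eq_right (by linarith)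
  · have : (E : ℝ) ≤ j := by
      have := not_lt.1 (fun h' => hj (mem_range.2 h'))
      exact_mod_cast this
    exact max_eq_left (by linarith)

end D1

open D1 in
theorem NT_eq {τ : ℝ} (h0 : 0 < τ) (h1 : τ < 1) (hirr : Irrational τ) {d e u : ℕ} (hu : 1 ≤ u)
    {v : ℤ} {K : ℝ} (hK : K = 3 * (1 + τ) * u + v) (hKu : 9 * (u : ℝ) + 1 ≤ K) {T : ℕ}
    (hT1 : u * T ≤ e) (hT2 : 0 ≤ 3 * (d : ℝ) - 9 * e - (K - 9 * u) * T) :
    |(NT τ d e u v T : ℝ) - (∑ j ∈ range (⌊(3 * (d : ℝ) - K * T) / 9⌋₊ + 1),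
        (3 * (d : ℝ) - K * T - 9 * j + Int.fract (zz τ d ((j : ℤ) + u * T)) - Int.fract (zz τ d j))
      - ((e : ℝ) - u * T) * ((e : ℝ) - u * T + 1) / 2)| ≤ 1 := by
  obtain ⟨J, hJ⟩ : ∃ J : ℕ, J = ⌊(3 * (d : ℝ) - K * T) / 9⌋₊ := ⟨_, rfl⟩
  rw [← hJ]
  have hTT : (0 : ℝ) ≤ T := Nat.cast_nonneg T
  have hu0 : (1 : ℝ) ≤ u := by exact_mod_cast hu
  have he : (u : ℝ) * T ≤ e := by exact_mod_cast hT1
  have hnn : 0 ≤ (3 * (d : ℝ) - K * T) / 9 := by
    apply div_nonneg _ (by norm_num)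
    nlinarith
  have hJle : (J : ℝ) ≤ (3 * (d : ℝ) - K * T) / 9 := by rw [hJ]; exact Nat.floor_le hnn
  have hJlt : (3 * (d : ℝ) - K * T) / 9 < J + 1 := by rw [hJ]; exact Nat.lt_floor_add_one _
  obtain ⟨E, hE⟩ : ∃ E : ℕ, e = u * T + E := ⟨e - u * T, by omega⟩
  have hER : (e : ℝ) - u * T = E := by rw [hE]; push_cast; ring
  have hEJ : E ≤ J := by
    rw [hJ]
    apply Nat.le_floor
    rw [← hER, le_div_iff₀ (by norm_num : (0 : ℝ) < 9)]
    nlinarith
  obtain ⟨a, ha⟩ : ∃ a : ℕ → ℤ, a = fun j : ℕ => hi τ d j - lo τ d e ((j : ℤ) + u * T) - v * T + 1 :=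
    ⟨_, rfl⟩
  obtain ⟨b, hb⟩ : ∃ b : ℕ → ℝ, b = fun j : ℕ => 3 * (d : ℝ) - K * T - 9 * j +
    Int.fract (zz τ d ((j : ℤ) + u * T)) - Int.fract (zz τ d j) - max 0 ((E : ℝ) - (j : ℝ)) :=
    ⟨_, rfl⟩
  have hmax : ∀ j : ℕ, ((max 0 ((e : ℤ) - ((j : ℤ) + u * T)) : ℤ) : ℝ) =
      max 0 ((E : ℝ) - (j : ℝ)) := by
    intro j
    rw [Int.cast_max]
    push_cast
    rw [← hER]
    congr 1
    ring
  have hfl : ∀ x : ℝ, ((⌊x⌋ : ℤ) : ℝ) = x - Int.fract x := fun x => by
    rw [Int.self_sub_fract]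
  have ab1 : ∀ j : ℕ, (d : ℤ) ≠ 3 * ((j : ℤ) + u * T) → (a j : ℝ) = b j := by
    intro j hj
    have h3 := Int.ceil_eq_add_one_sub_fract (fract_ne hirr d _ hj)
    have h4 := zz_shift τ d u v K hK j T
    have h5 := hmax j
    rw [ha, hb]
    simp only [hi, lo]
    push_cast
    push_cast at h5
    rw [h5, h3, hfl, h4]
    ring
  have ab2 : ∀ j : ℕ, (d : ℤ) = 3 * ((j : ℤ) + u * T) →
      (a j : ℝ) = b j + 1 ∧ Int.fract (zz τ d ((j : ℤ) + u * T)) = 0 := by
    intro j hj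
    have h2 : zz τ d ((j : ℤ) + u * T) = 0 := by
      unfold zz
      have : (d : ℝ) = 3 * (((j : ℤ) + u * T : ℤ) : ℝ) := by exact_mod_cast hj
      rw [this]
      ring
    have h4 := zz_shift τ d u v K hK j T
    have h5 := hmax j
    have h6 : Int.fract (zz τ d ((j : ℤ) + u * T)) = 0 := by rw [h2, Int.fract_zero]
    refine ⟨?_, h6⟩
    rw [ha, hb]
    simp only [hi, lo]
    rw [h2, Int.ceil_zero, Int.fract_zero]
    push_cast
    push_cast at h5
    rw [h5, hfl]
    rw [h2] at h4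
    linear_combination -h4
  -- the linear part is nonnegative for `j ≤ J`
  have hl : ∀ j : ℕ, j ≤ J → 0 ≤ 3 * (d : ℝ) - K * T - 9 * j - max 0 ((E : ℝ) - (j : ℝ)) := by
    intro j hj
    have hjR : (j : ℝ) ≤ J := by exact_mod_cast hj
    rcases le_total ((E : ℝ) - (j : ℝ)) 0 with h | h
    · rw [max_eq_left h]
      linarith
    · rw [max_eq_right h]
      nlinarith
  have hzero : ∀ j : ℕ, J < j → (a j).toNat = 0 := by
    intro j hj
    rw [Int.toNat_eq_zero]
    have hjR : (J : ℝ) + 1 ≤ j := by exact_mod_cast hj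
    have hneg : 3 * (d : ℝ) - K * T - 9 * j < 0 := by linarith
    have hm : (0 : ℝ) ≤ max 0 ((E : ℝ) - (j : ℝ)) := le_max_left _ _
    have hf2 := Int.fract_nonneg (zz τ d (j : ℤ))
    have hf1 := Int.fract_lt_one (zz τ d ((j : ℤ) + u * T))
    by_cases hs : (d : ℤ) = 3 * ((j : ℤ) + u * T)
    · obtain ⟨h3, h4⟩ := ab2 j hs
      have hdR : (d : ℝ) = 3 * ((j : ℝ) + u * T) := by exact_mod_cast hs
      have hT : T ≠ 0 := by
        intro hT
        rw [hT] at hdR hneg
        push_cast at hdR hneg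
        linarith
      have hT' : (1 : ℝ) ≤ T := by exact_mod_cast Nat.one_le_iff_ne_zero.2 hT
      have h5 : (a j : ℝ) < 1 := by
        rw [h3, hb]
        simp only
        rw [h4]
        nlinarith
      have : a j < 1 := by exact_mod_cast h5
      omega
    · have h5 : (a j : ℝ) < 1 := by
        rw [ab1 j hs, hb]
        simp only
        linarith
      have : a j < 1 := by exact_mod_cast h5
      omega
  have hterm : ∀ j ∈ range (J + 1), ((a j).toNat : ℝ) - b j =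
      if j = d / 3 then (if T = 0 ∧ 3 ∣ d then (1 : ℝ) else 0) else 0 := by
    intro j hj
    have hjJ : j ≤ J := Nat.lt_succ_iff.1 (mem_range.1 hj)
    have h3 := hl j hjJ
    have hf1 := Int.fract_nonneg (zz τ d ((j : ℤ) + u * T))
    have hf2 := Int.fract_lt_one (zz τ d (j : ℤ))
    have hbj : -1 < b j := by
      rw [hb]
      simp only
      linarith
    by_cases hs : (d : ℤ) = 3 * ((j : ℤ) + u * T)
    · obtain ⟨h4, h5⟩ := ab2 j hs
      have hdR : (d : ℝ) = 3 * ((j : ℝ) + u * T) := by exact_mod_cast hs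
      have hT : T = 0 := by
        by_contra hT
        have hT' : (1 : ℝ) ≤ T := by exact_mod_cast Nat.one_le_iff_ne_zero.2 hT
        have hjR : (j : ℝ) ≤ J := by exact_mod_cast hjJ
        nlinarith
      have hd : d = 3 * j := by
        rw [hT] at hs
        push_cast at hs
        omega
      rw [if_pos (by omega), if_pos ⟨hT, ⟨j, hd⟩⟩]
      have h6 : 0 ≤ a j := by
        have : (-1 : ℝ) < a j := by linarith
        have : (-1 : ℤ) < a j := by exact_mod_cast this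
        omega
      have h7 : ((a j).toNat : ℝ) = a j := by
        have := Int.toNat_of_nonneg h6
        exact_mod_cast this
      rw [h7, h4]
      ring
    · have h4 := ab1 j hs
      have h6 : 0 ≤ a j := by
        have : (-1 : ℝ) < a j := by linarith
        have : (-1 : ℤ) < a j := by exact_mod_cast this
        omega
      have h7 : ((a j).toNat : ℝ) = a j := by
        have := Int.toNat_of_nonneg h6
        exact_mod_cast this
      rw [h7, h4, sub_self]
      by_cases hj3 : j = d / 3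
      · rw [if_pos hj3, if_neg]
        rintro ⟨hT, hd⟩
        apply hs
        rw [hT]
        push_cast
        omega
      · rw [if_neg hj3]
  have hJd : J + 1 ≤ d / 3 + 1 := by
    have h3 : (J : ℝ) ≤ (d : ℝ) / 3 := by nlinarith
    have h4 : 3 * J ≤ d := by
      have : (3 : ℝ) * J ≤ d := by linarith
      exact_mod_cast this
    omega
  have hNT : (NT τ d e u v T : ℝ) = ∑ j ∈ range (J + 1), ((a j).toNat : ℝ) := by
    unfold NT
    push_cast
    rw [ha]
    simp only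
    symm
    apply sum_subset (range_subset_range.2 hJd)
    intro j _ hj
    have hj' : J < j := by
      have := not_lt.1 (fun h' => hj (mem_range.2 h'))
      omega
    have := hzero j hj'
    rw [ha] at this
    simp only at this
    rw [this, Nat.cast_zero]
  rw [hNT]
  have hsum : ∑ j ∈ range (J + 1), ((a j).toNat : ℝ) - (∑ j ∈ range (J + 1),
        (3 * (d : ℝ) - K * T - 9 * j + Int.fract (zz τ d ((j : ℤ) + u * T)) - Int.fract (zz τ d j))
      - ((e : ℝ) - u * T) * ((e : ℝ) - u * T + 1) / 2) =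
      ∑ j ∈ range (J + 1), (((a j).toNat : ℝ) - b j) := by
    have h3 : ∑ j ∈ range (J + 1), b j = ∑ j ∈ range (J + 1),
        (3 * (d : ℝ) - K * T - 9 * j + Int.fract (zz τ d ((j : ℤ) + u * T)) - Int.fract (zz τ d j))
        - ∑ j ∈ range (J + 1), max 0 ((E : ℝ) - (j : ℝ)) := by
      rw [hb, ← sum_sub_distrib]
    have h8 := sum_sub_distrib (s := range (J + 1)) (fun j => ((a j).toNat : ℝ)) b
    rw [h8, h3, sum_max (by omega), hER]
  rw [hsum, sum_congr rfl hterm, sum_ite_eq']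
  split_ifs <;> simp

end Pool.Agent.TH603.SX
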