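import Pool.Agent.TH603.Sur.Uni
import Pool.Agent.TH603.EL.Key
import Pool.Agent.TH387.SH.Tr
import Pool.Agent.TH648.SH.Absorb

set_option autoImplicit false

/-! Exact postulation of many general fat points: definitions. -/

namespace Pool.Agent.TH603.SX

open Finset Pool.Agent.TH176.Nag Pool.Agent.TH603.Sur

/-- the left end of the row `j` of the triangle `T_d(τ)` -/
noncomputable def zz (τ : ℝ) (d : ℕ) (j : ℤ) : ℝ := -((1 + τ) * ((d : ℝ) - 3 * (j : ℝ)))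

/-- first integer of the row `j`, after a point of multiplicity `e` has been absorbed -/
noncomputable def lo (τ : ℝ) (d e : ℕ) (j : ℤ) : ℤ := ⌈zz τ d j⌉ + max 0 ((e : ℤ) - j)

/-- last integer of the row `j` -/
noncomputable def hi (τ : ℝ) (d : ℕ) (j : ℤ) : ℤ := ⌊zz τ d j⌋ + 3 * ((d : ℤ) - 3 * j)

/-- the triangle `T_d(τ)` without the corner of a point of multiplicity `e` -/
def QQ (τ : ℝ) (d e : ℕ) : Set (ℤ × ℤ) :=
  {p | 0 ≤ p.2 ∧ lo τ d e p.2 ≤ p.1 ∧ p.1 ≤ hi τ d p.2}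

/-- the row `T` of the flattening of `S` in the direction `(-v, u)` -/
def RT (S : Set (ℤ × ℤ)) (u v : ℤ) (T : ℕ) : Set ℤ :=
  {c | ∃ p ∈ S, ((p.1 - v * T, p.2 + u * T) : ℤ × ℤ) ∈ S ∧ u * p.1 + v * p.2 = c}

/-- number of points of `S ∩ (S - T (-v, u))`, for `S = QQ τ d e` -/
noncomputable def NT (τ : ℝ) (d e u : ℕ) (v : ℤ) (T : ℕ) : ℕ :=
  ∑ j ∈ range (d / 3 + 1),
    (hi τ d j - lo τ d e ((j : ℤ) + u * T) - v * T + 1).toNat

/-- exponents of degree less than `δ` -/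
def TY (δ : ℕ) : Set (ℤ × ℤ) := {m | 0 ≤ m.1 ∧ 0 ≤ m.2 ∧ m.1 + m.2 < (δ : ℤ)}

end Pool.Agent.TH603.SX
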