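import Pool.Agent.TH603.SX.Defs

set_option autoImplicit false

/-! Exact postulation of many general fat points: the last rows of the flattening. -/

namespace Pool.Agent.TH603.SX

open Finset Pool.Agent.TH176.Nag Pool.Agent.TH603.Sur

/-- the length of the row `j` of `Q ∩ (Q - T (-v, u))` -/
theorem E_row_le {τ : ℝ} {d e u : ℕ} {v : ℤ} {K : ℝ} (hK : K = 3 * (1 + τ) * u + v) (T j : ℕ) :
    ((hi τ d j - lo τ d e ((j : ℤ) + u * T) - v * T + 1 : ℤ) : ℝ) ≤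
      3 * (d : ℝ) - K * T + 1 - 9 * j := by
  unfold hi lo
  have hf : ((⌊zz τ d (j : ℤ)⌋ : ℤ) : ℝ) ≤ zz τ d (j : ℤ) := Int.floor_le _
  have hc : zz τ d ((j : ℤ) + u * T) ≤ ((⌈zz τ d ((j : ℤ) + u * T)⌉ : ℤ) : ℝ) := Int.le_ceil _
  have hm : (0 : ℝ) ≤ ((max 0 ((e : ℤ) - ((j : ℤ) + u * T)) : ℤ) : ℝ) := by
    exact_mod_cast le_max_left _ _
  have hz : zz τ d ((j : ℤ) + u * T) = zz τ d (j : ℤ) + 3 * (1 + τ) * u * T := by
    unfold zz
    push_cast
    ring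
  rw [hz] at hc
  have hKT : K * T = 3 * (1 + τ) * u * T + v * T := by
    rw [hK]; ring
  have hm' : (0 : ℝ) ≤ max 0 ((e : ℝ) - ((j : ℝ) + u * T)) := le_max_left _ _
  rw [hz]
  push_cast
  rw [hKT]
  linarith

/-- the sum of the row lengths -/
theorem E_sum_le (n : ℕ) : ∀ y : ℝ,
    ∑ j ∈ range n, max 0 (y - 9 * (j : ℝ)) ≤ (max 0 y) ^ 2 / 18 + max 0 y := by
  induction n with
  | zero =>
    intro y
    have h : 0 ≤ max 0 y := le_max_left _ _
    simp only [range_zero, sum_empty]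
    positivity
  | succ n ih =>
    intro y
    rw [sum_range_succ']
    have h1 : ∑ j ∈ range n, max 0 (y - 9 * ((j + 1 : ℕ) : ℝ)) =
        ∑ j ∈ range n, max 0 ((y - 9) - 9 * (j : ℝ)) := by
      refine sum_congr rfl fun j _ => ?_
      congr 1
      push_cast
      ring
    rw [h1]
    have h2 := ih (y - 9)
    have h3 : max 0 (y - 9 * ((0 : ℕ) : ℝ)) = max 0 y := by simp
    rw [h3]
    have h4 : (max 0 (y - 9)) ^ 2 / 18 + max 0 (y - 9) ≤ (max 0 y) ^ 2 / 18 := by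
      rcases le_total y 9 with h | h
      · rw [max_eq_left (by linarith : y - 9 ≤ 0)]
        have : 0 ≤ (max 0 y) ^ 2 := sq_nonneg _
        simp only [ne_eq, OfNat.ofNat_ne_zero, not_false_eq_true, zero_pow, zero_div, zero_add]
        linarith
      · rw [max_eq_right (by linarith : (0 : ℝ) ≤ y - 9), max_eq_right (by linarith : (0 : ℝ) ≤ y)]
        nlinarith
    linarith

-- E1 : the last row
theorem NT_last {τ : ℝ} (h0 : 0 < τ) (h1 : τ < 1) (hirr : Irrational τ) {d e u : ℕ} (hu : 1 ≤ u)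
    {v : ℤ} {K : ℝ} (hK : K = 3 * (1 + τ) * u + v) (hKu : 9 * (u : ℝ) + 1 ≤ K) (hK2 : 1000 ≤ K)
    {m : ℕ} (hm : 1 ≤ m) (hy : 3 * (d : ℝ) - K * m ≤ K / 2 + 1) : (NT τ d e u v m : ℝ) ≤ K ^ 2 / 60 := by
  unfold NT
  push_cast
  have hterm : ∀ j ∈ range (d / 3 + 1),
      (((hi τ d j - lo τ d e ((j : ℤ) + u * m) - v * m + 1).toNat : ℕ) : ℝ) ≤
        max 0 ((K / 2 + 2) - 9 * (j : ℝ)) := by
    intro j _
    have hr := E_row_le (e := e) (d := d) hK m j
    rcases le_total (hi τ d j - lo τ d e ((j : ℤ) + u * m) - v * m + 1) 0 with h | h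
    · rw [Int.toNat_of_nonpos h]
      simp
    · refine le_max_of_le_right ?_
      have h' : (((hi τ d j - lo τ d e ((j : ℤ) + u * m) - v * m + 1).toNat : ℕ) : ℝ) =
          ((hi τ d j - lo τ d e ((j : ℤ) + u * m) - v * m + 1 : ℤ) : ℝ) := by
        have := Int.toNat_of_nonneg h
        exact_mod_cast congrArg (fun t : ℤ => (t : ℝ)) this
      rw [h']
      linarith
  have hs := (sum_le_sum hterm).trans (E_sum_le (d / 3 + 1) (K / 2 + 2))
  have hmax : max 0 (K / 2 + 2) = K / 2 + 2 := max_eq_right (by linarith)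
  rw [hmax] at hs
  refine hs.trans ?_
  nlinarith

-- E2
theorem NT_zero {τ : ℝ} (h0 : 0 < τ) (h1 : τ < 1) (hirr : Irrational τ) {d e u : ℕ} (hu : 1 ≤ u)
    {v : ℤ} {K : ℝ} (hK : K = 3 * (1 + τ) * u + v) (hKu : 9 * (u : ℝ) + 1 ≤ K)
    {T : ℕ} (hT : 1 ≤ T) (hy : 3 * (d : ℝ) - K * T < 0) : NT τ d e u v T = 0 := by
  unfold NT
  refine sum_eq_zero fun j _ => ?_
  refine Int.toNat_of_nonpos ?_
  have hr := E_row_le (e := e) (d := d) hK T j
  have hj : (0 : ℝ) ≤ j := Nat.cast_nonneg j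
  have hlt : ((hi τ d j - lo τ d e ((j : ℤ) + u * T) - v * T + 1 : ℤ) : ℝ) < ((1 : ℤ) : ℝ) := by
    push_cast at hr ⊢
    linarith
  have := Int.cast_lt.mp hlt
  omega

end Pool.Agent.TH603.SX
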