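import Mathlib

set_option autoImplicit false

/-! Exact postulation of many general fat points: the choice of the parameters. -/

namespace Pool.Agent.TH603.SX

/-- a power of two within a factor two below a real number at least one -/
private theorem exists_pow_two {x : ℝ} (hx : 1 ≤ x) :
    ∃ a : ℕ, ((2 ^ a : ℕ) : ℝ) ≤ x ∧ x < 2 * ((2 ^ a : ℕ) : ℝ) := by
  obtain ⟨a, h1, h2⟩ := exists_nat_pow_near hx (by norm_num : (1 : ℝ) < 2)
  refine ⟨a, by push_cast; exact h1, ?_⟩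
  push_cast
  rw [pow_succ] at h2
  linarith

/-- an odd integer in a half-open interval of length two -/
private theorem exists_odd_near (x : ℝ) : ∃ v : ℤ, Odd v ∧ x ≤ v ∧ (v : ℝ) < x + 2 := by
  refine ⟨2 * ⌈(x - 1) / 2⌉ + 1, ⟨⌈(x - 1) / 2⌉, rfl⟩, ?_, ?_⟩
  · have := Int.le_ceil ((x - 1) / 2)
    push_cast
    linarith
  · have := Int.ceil_lt_add_one ((x - 1) / 2)
    push_cast
    linarith

-- F1 : choice of the parameters
theorem exists_par : ∃ N0 : ℕ, ∀ n : ℕ, N0 ≤ n → ∃ a : ℕ,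
    √(n : ℝ) / 6 - 1 ≤ ((2 ^ a : ℕ) : ℝ) ∧ ((2 ^ a : ℕ) : ℝ) ≤ √(n : ℝ) / 3 - 2 ∧
    ∀ κ : ℝ, 0 < κ → ∃ (K τ η : ℝ) (v : ℤ), |K - 3 * √(n : ℝ)| ≤ κ ∧ Irrational τ ∧ 0 < τ ∧ τ < 1 ∧
      Odd v ∧ K = 3 * (1 + τ) * ((2 ^ a : ℕ) : ℝ) + v ∧ 0 ≤ η ∧ η * ((30 : ℕ) : ℝ) ≤ 1 ∧
      3 * (1 + τ) = 3 + (1 + η) / ((30 : ℕ) : ℝ) := by
  refine ⟨900000000, fun n hn => ?_⟩
  have hs : (30000 : ℝ) ≤ √(n : ℝ) := by
    apply Real.le_sqrt_of_sq_le
    have : (900000000 : ℝ) ≤ n := by exact_mod_cast hn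
    calc (30000 : ℝ) ^ 2 = 900000000 := by norm_num
      _ ≤ n := this
  generalize √(n : ℝ) = s at hs
  obtain ⟨a, ha1, ha2⟩ := exists_pow_two (x := s / 3 - 2) (by linarith)
  refine ⟨a, by linarith, ha1, ?_⟩
  generalize hu : ((2 ^ a : ℕ) : ℝ) = u at ha1 ha2
  have hu0 : (3600 : ℝ) ≤ u := by linarith
  intro κ hκ
  obtain ⟨v, hv, hv1, hv2⟩ := exists_odd_near (3 * s - (u * (3 + 1 / 30 + 1 / 900) - 1 / 2))
  have hκ' : 0 < min κ (1 / 2) := lt_min hκ (by norm_num)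
  obtain ⟨K, hK, hK1, hK2⟩ := exists_irrational_btwn
    (show 3 * s - min κ (1 / 2) < 3 * s + min κ (1 / 2) by linarith)
  have hm1 : min κ (1 / 2) ≤ κ := min_le_left _ _
  have hm2 : min κ (1 / 2) ≤ 1 / 2 := min_le_right _ _
  have hup : (0 : ℝ) < u := by linarith
  have hlo : u * (3 + 1 / 30) ≤ K - v := by linarith
  have hhi : K - v ≤ u * (3 + 1 / 30 + 1 / 900) := by linarith
  have h3 : 3 + 1 / 30 ≤ (K - v) / u := by
    rw [le_div_iff₀ hup]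
    linarith
  have h4 : (K - v) / u ≤ 3 + 1 / 30 + 1 / 900 := by
    rw [div_le_iff₀ hup]
    linarith
  have h5 : (K - v) / (3 * u) = (K - v) / u / 3 := by
    rw [div_div, mul_comm]
  refine ⟨K, (K - v) / (3 * u) - 1, 30 * ((K - v) / u - 3) - 1, v, ?_, ?_, ?_, ?_, hv, ?_, ?_, ?_, ?_⟩
  · rw [abs_le]
    constructor <;> linarith
  · rintro ⟨q, hq⟩
    apply hK
    refine ⟨3 * (1 + q) * ((2 ^ a : ℕ) : ℚ) + v, ?_⟩
    have h6 : (((2 ^ a : ℕ) : ℚ) : ℝ) = u := by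
      rw [← hu]
      push_cast
      rfl
    push_cast
    push_cast at h6
    rw [h6, hq]
    field_simp
    ring
  · rw [h5]
    linarith
  · rw [h5]
    linarith
  · field_simp
    ring
  · linarith
  · push_cast
    linarith
  · rw [h5]
    push_cast
    ring

end Pool.Agent.TH603.SX
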