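import Mathlib

/-!
A finite-dimensional space of polynomials contains no nonzero polynomial vanishing to the order of
its dimension at a general point.
-/

set_option autoImplicit false

open Polynomial

namespace Pool.Agent.TH603.SX

/-- two nonzero solutions of `b g' = b' g` have the same degree -/
theorem natDegree_eq_of_wronsk {K : Type*} [Field K] [CharZero K] {b g : K[X]} (hb : b ≠ 0)
    (hg : g ≠ 0) (h : b * derivative g = derivative b * g) : g.natDegree = b.natDegree := by
  have hX : ∀ p : K[X], (X * derivative p).natDegree ≤ p.natDegree := by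
    intro p
    rcases Nat.eq_zero_or_pos p.natDegree with h0 | h0
    · rw [Polynomial.derivative_of_natDegree_zero h0, mul_zero, natDegree_zero]
      exact Nat.zero_le _
    · have h1 := Polynomial.natDegree_derivative_lt (p := p) (by omega)
      have h2 := Polynomial.natDegree_mul_le (p := (X : K[X])) (q := derivative p)
      rw [natDegree_X] at h2
      omega
  have hc : ∀ p : K[X], (X * derivative p).coeff p.natDegree =
      (p.natDegree : K) * p.coeff p.natDegree := by
    intro p
    rcases Nat.eq_zero_or_pos p.natDegree with h0 | h0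
    · rw [Polynomial.derivative_of_natDegree_zero h0, h0]
      simp
    · obtain ⟨n, hn⟩ : ∃ n, p.natDegree = n + 1 := ⟨p.natDegree - 1, by omega⟩
      rw [hn, coeff_X_mul, coeff_derivative]
      push_cast
      ring
  have h1 : b * (X * derivative g) = (X * derivative b) * g := by
    linear_combination X * h
  have h2 : (b * (X * derivative g)).coeff (b.natDegree + g.natDegree) =
      ((X * derivative b) * g).coeff (b.natDegree + g.natDegree) := by rw [h1]
  rw [coeff_mul_add_eq_of_natDegree_le le_rfl (hX g),
    coeff_mul_add_eq_of_natDegree_le (hX b) le_rfl, hc, hc] at h2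
  have hb' : b.coeff b.natDegree ≠ 0 := by
    rw [coeff_natDegree]; exact leadingCoeff_ne_zero.2 hb
  have hg' : g.coeff g.natDegree ≠ 0 := by
    rw [coeff_natDegree]; exact leadingCoeff_ne_zero.2 hg
  have h3 : (g.natDegree : K) = (b.natDegree : K) := by
    have h4 : ((g.natDegree : K) - (b.natDegree : K)) *
        (b.coeff b.natDegree * g.coeff g.natDegree) = 0 := by linear_combination h2
    exact sub_eq_zero.1 ((mul_eq_zero.1 h4).resolve_right (mul_ne_zero hb' hg'))
  exact_mod_cast h3

/-- the solutions of `b f' = b' f` are the multiples of `b` -/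
theorem eq_smul_of_wronsk {K : Type*} [Field K] [CharZero K] {b f : K[X]} (hb : b ≠ 0)
    (h : b * derivative f = derivative b * f) : ∃ a : K, f = C a * b := by
  refine ⟨f.coeff b.natDegree / b.coeff b.natDegree, ?_⟩
  have hb' : b.coeff b.natDegree ≠ 0 := by
    rw [coeff_natDegree]; exact leadingCoeff_ne_zero.2 hb
  by_contra hne
  set a : K := f.coeff b.natDegree / b.coeff b.natDegree with ha
  have hg : f - C a * b ≠ 0 := sub_ne_zero.2 hne
  have h1 : b * derivative (f - C a * b) = derivative b * (f - C a * b) := by
    rw [derivative_sub, derivative_C_mul]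
    linear_combination h
  have h2 := natDegree_eq_of_wronsk hb hg h1
  have h3 : (f - C a * b).coeff (f - C a * b).natDegree ≠ 0 := by
    rw [coeff_natDegree]; exact leadingCoeff_ne_zero.2 hg
  apply h3
  rw [h2, coeff_sub, coeff_C_mul, ha, div_mul_cancel₀ _ hb', sub_self]

theorem exists_good {K : Type*} [Field K] [CharZero K] (A : Submodule K K[X])
    [FiniteDimensional K A] : ∃ P : K[X], P ≠ 0 ∧ ∀ c : K, P.eval c ≠ 0 →
      ∀ f ∈ A, (X - C c) ^ (Module.finrank K A) ∣ f → f = 0 := by
  obtain ⟨n, hn⟩ : ∃ n, Module.finrank K A = n := ⟨_, rfl⟩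
  induction n using Nat.strong_induction_on generalizing A with
  | _ n ih =>
    by_cases hA : A = ⊥
    · refine ⟨1, one_ne_zero, fun c _ f hf _ => ?_⟩
      rw [hA] at hf
      exact (Submodule.mem_bot K).1 hf
    · obtain ⟨b, hbA, hb0⟩ := (Submodule.ne_bot_iff A).1 hA
      let T : K[X] →ₗ[K] K[X] :=
        LinearMap.mulLeft K b ∘ₗ derivative - LinearMap.mulLeft K (derivative b)
      have hT : ∀ f, T f = b * derivative f - derivative b * f := fun f => rfl
      have hTb : T b = 0 := by rw [hT]; ring
      have hlt : Module.finrank K (A.map T) < n := by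
        have h1 := LinearMap.finrank_range_add_finrank_ker (T.domRestrict A)
        rw [LinearMap.range_domRestrict] at h1
        have h2 : 1 ≤ Module.finrank K (LinearMap.ker (T.domRestrict A)) := by
          rw [Submodule.one_le_finrank_iff]
          intro hbot
          have hm : (⟨b, hbA⟩ : A) ∈ LinearMap.ker (T.domRestrict A) := by
            rw [LinearMap.mem_ker]; exact hTb
          rw [hbot, Submodule.mem_bot] at hm
          exact hb0 (congrArg (fun x : A => (x : K[X])) hm)
        omega
      obtain ⟨P, hP0, hP⟩ := ih _ hlt (A.map T) rfl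
      refine ⟨P * b, mul_ne_zero hP0 hb0, fun c hc f hf hd => ?_⟩
      rw [eval_mul] at hc
      have hPc : P.eval c ≠ 0 := left_ne_zero_of_mul hc
      have hbc : b.eval c ≠ 0 := right_ne_zero_of_mul hc
      rw [hn] at hd
      have h1 : (X - C c) ^ (n - 1) ∣ T f := by
        rw [hT]
        exact dvd_sub (Dvd.dvd.mul_left (pow_sub_one_dvd_derivative_of_pow_dvd hd) _)
          (Dvd.dvd.mul_left ((pow_dvd_pow _ (Nat.sub_le n 1)).trans hd) _)
      have h2 : T f = 0 := hP c hPc (T f) (Submodule.mem_map_of_mem hf)
        ((pow_dvd_pow _ (by omega)).trans h1)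
      rw [hT] at h2
      obtain ⟨a, ha⟩ := eq_smul_of_wronsk hb0 (sub_eq_zero.1 h2)
      have hn0 : n ≠ 0 := by omega
      have h3 : X - C c ∣ f := (dvd_pow_self (X - C c) hn0).trans hd
      rw [dvd_iff_isRoot, IsRoot.def, ha, eval_mul, eval_C] at h3
      have h4 : a = 0 := (mul_eq_zero.1 h3).resolve_right hbc
      rw [ha, h4, C_0, zero_mul]

end Pool.Agent.TH603.SX
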