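import Pool.Agent.TH603.SX.Defs
import Pool.Agent.TH698.NagT3

set_option autoImplicit false

/-! Gluing of a system of low degree and a system with a big point (pieces G4, G5), from the
statements about the two parts of the layer. -/

namespace Pool.Agent.TH603.SX

open Finset Pool.Agent.TH176.Nag Pool.Agent.TH603.Sur Pool.Agent.TH603.Cut

namespace G4

/-- The lower part. -/
def S1 (δ a : ℕ) : Set (ℤ × ℤ) :=
  {m : ℤ × ℤ | 0 ≤ m.1 ∧ 0 ≤ m.2 ∧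
      (m.1 + m.2 < (δ : ℤ) ∨ (m.1 + m.2 = (δ : ℤ) ∧ m.1 < (a : ℤ)))}

/-- The upper part. -/
def S2 (δ d a : ℕ) : Set (ℤ × ℤ) :=
  {m : ℤ × ℤ | 0 ≤ m.1 ∧ 0 ≤ m.2 ∧ m.1 + m.2 ≤ (d : ℤ) ∧
      ((δ : ℤ) < m.1 + m.2 ∨ (m.1 + m.2 = (δ : ℤ) ∧ (a : ℤ) ≤ m.1))}

/-- Statement of the piece G2. -/
def G2S : Prop := ∀ {ι : Type} [Fintype ι] {w : ι → ℕ} {δ a : ℕ}, Sur w (TZ δ) →
  Emp w (TY δ) → (δ + 1).choose 2 + a ≤ cond w → Emp w (S1 δ a)

/-- Statement of the piece G3. -/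
def G3S : Prop := ∀ {ι : Type} [Fintype ι] {w : ι → ℕ} {δ d a : ℕ}, δ ≤ d → a ≤ δ + 1 →
  Sur (Sum.elim (fun _ : Unit => δ) w) (TZ d) →
  Emp (Sum.elim (fun _ : Unit => δ + 1) w) (TZ d) →
  (d + 2).choose 2 + (δ + 1 - a) ≤ cond w + (δ + 2).choose 2 → Emp w (S2 δ d a)

theorem TZ_finite (d : ℕ) : (TZ d).Finite := by
  rw [← Pool.Agent.TH387.SH.coe_TF]
  exact Finset.finite_toSet _

theorem S1_sub {δ d a : ℕ} (hδ : δ ≤ d) : S1 δ a ⊆ TZ d := by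
  rintro ⟨x, y⟩ ⟨h1, h2, h3⟩
  simp only at h1 h2 h3
  refine ⟨h1, h2, ?_⟩
  simp only
  omega

theorem S2_sub {δ d a : ℕ} : S2 δ d a ⊆ TZ d := by
  rintro ⟨x, y⟩ ⟨h1, h2, h3, _⟩
  exact ⟨h1, h2, h3⟩

theorem TZ_sub {δ d a : ℕ} : TZ d ⊆ S1 δ a ∪ S2 δ d a := by
  rintro ⟨x, y⟩ ⟨h1, h2, h3⟩
  simp only at h1 h2 h3
  simp only [Set.mem_union, S1, S2, Set.mem_ofPred_eq]
  omega

theorem cut_ineq {δ d a : ℕ} (ha : a ≤ δ + 1) (m : ℤ × ℤ) (hm : m ∈ S1 δ a) (m' : ℤ × ℤ)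
    (hm' : m' ∈ S2 δ d a) :
    ((δ : ℤ) + 2) * m.1 + ((δ : ℤ) + 1) * m.2 < ((δ : ℤ) + 2) * m'.1 + ((δ : ℤ) + 1) * m'.2 := by
  obtain ⟨x, y⟩ := m
  obtain ⟨x', y'⟩ := m'
  obtain ⟨h1, h2, h3⟩ := hm
  obtain ⟨h4, h5, h6, h7⟩ := hm'
  simp only at h1 h2 h3 h4 h5 h6 h7 ⊢
  have e1 : ((δ : ℤ) + 2) * x + ((δ : ℤ) + 1) * y = ((δ : ℤ) + 1) * (x + y) + x := by ring
  have e2 : ((δ : ℤ) + 2) * x' + ((δ : ℤ) + 1) * y' = ((δ : ℤ) + 1) * (x' + y') + x' := by ring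
  rw [e1, e2]
  have hN : (0 : ℤ) ≤ (δ : ℤ) + 1 := by omega
  by_cases h : x + y = x' + y'
  · rw [h]
    have : x < x' := by omega
    linarith
  · have h8 : x + y ≤ x' + y' - 1 := by omega
    have h9 := mul_le_mul_of_nonneg_left h8 hN
    have h10 : x < (δ : ℤ) + 1 := by omega
    have h11 : ((δ : ℤ) + 1) * (x' + y' - 1) = ((δ : ℤ) + 1) * (x' + y') - ((δ : ℤ) + 1) := by ring
    rw [h11] at h9
    linarith

theorem cond_elim {ι κ : Type} [Fintype ι] [Fintype κ] (w : ι → ℕ) (v : κ → ℕ) :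
    cond (Sum.elim w v) = cond w + cond v := by
  unfold Pool.Agent.TH603.Sur.cond
  rw [Fintype.sum_sum_type]
  rfl

theorem cond_one (k : ℕ) : cond (fun _ : Fin k => 1) = k := by
  unfold Pool.Agent.TH603.Sur.cond
  simp

theorem cond_unit (e : ℕ) : cond (fun _ : Unit => e) = (e + 1).choose 2 := by
  unfold Pool.Agent.TH603.Sur.cond
  simp

theorem cond_le_card {ι : Type} [Fintype ι] {w : ι → ℕ} {d : ℕ} (h : Sur w (TZ d)) :
    cond w ≤ (d + 2).choose 2 := by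
  obtain ⟨T, h1, h2, _⟩ := h
  rw [← h2, ← Pool.Agent.TH387.SH.card_TF]
  apply Finset.card_le_card
  rw [← Pool.Agent.TH387.SH.coe_TF] at h1
  exact_mod_cast h1

theorem choose_step (δ : ℕ) : (δ + 2).choose 2 = (δ + 1).choose 2 + (δ + 1) := by
  have h := Nat.choose_succ_succ (δ + 1) 1
  rw [Nat.choose_one_right] at h
  show (δ + 1 + 1).choose (1 + 1) = _
  rw [h]
  ring

theorem glue_E_of (g2 : G2S) (g3 : G3S) {ι κ : Type} [Fintype ι] [Fintype κ] {w : ι → ℕ}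
    {w' : κ → ℕ} {δ d : ℕ} (hδ : δ ≤ d)
    (hPS : Sur w (TZ δ)) (hPE : Emp w (TY δ))
    (hFS : Sur (Sum.elim (fun _ : Unit => δ) w') (TZ d))
    (hFE : Emp (Sum.elim (fun _ : Unit => δ + 1) w') (TZ d))
    (hc : (δ + 1).choose 2 ≤ cond w) (hv : (d + 2).choose 2 ≤ cond w + cond w') :
    Emp (Sum.elim w w') (TZ d) := by
  obtain ⟨a, ha⟩ := Nat.exists_eq_add_of_le hc
  have h1 := cond_le_card hPS
  have h2 := choose_step δ
  have haδ : a ≤ δ + 1 := by omega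
  have e1 : Emp w (S1 δ a) := g2 hPS hPE (by omega)
  have e2 : Emp w' (S2 δ d a) := g3 hδ haδ hFS hFE (by omega)
  have h3 := Pool.Agent.TH698.NagT3.Emp_cut ((TZ_finite d).subset (S1_sub hδ))
    ((TZ_finite d).subset S2_sub) (fun m hm => ⟨hm.1, hm.2.1⟩) (fun m hm => ⟨hm.1, hm.2.1⟩)
    ((δ : ℤ) + 2) ((δ : ℤ) + 1) (cut_ineq haδ) e1 e2
  exact h3.mono TZ_sub

theorem glue_S_of (g2 : G2S) (g3 : G3S) {ι κ : Type} [Fintype ι] [Fintype κ] {w : ι → ℕ}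
    {w' : κ → ℕ} {δ d : ℕ} (hδ : δ ≤ d)
    (hPS : Sur w (TZ δ)) (hPE : Emp w (TY δ))
    (hFS : Sur (Sum.elim (fun _ : Unit => δ) w') (TZ d))
    (hFE : Emp (Sum.elim (fun _ : Unit => δ + 1) w') (TZ d))
    (hc : (δ + 1).choose 2 ≤ cond w) (hv : cond w + cond w' ≤ (d + 2).choose 2) :
    Sur (Sum.elim w w') (TZ d) := by
  classical
  obtain ⟨k, hk⟩ := Nat.exists_eq_add_of_le hv
  -- `k` additional simple points
  have hFE' : Emp (Sum.elim (fun _ : Unit => δ + 1) (Sum.elim w' (fun _ : Fin k => 1))) (TZ d) := by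
    refine Emp_emb (Sum.map id Sum.inl) ?_ ?_ hFE
    · exact Sum.map_injective.2 ⟨Function.injective_id, Sum.inl_injective⟩
    · rintro (i | i) <;> simp
  have hFS' : Sur (Sum.elim (fun _ : Unit => δ) (Sum.elim w' (fun _ : Fin k => 1))) (TZ d) := by
    obtain ⟨T, h1, h2, h3⟩ := hFS
    rw [cond_elim, cond_unit] at h2
    rw [← Pool.Agent.TH387.SH.coe_TF] at h1
    have h1' : T ⊆ Pool.Agent.TH387.SH.TF d := by exact_mod_cast h1
    have h4 : k ≤ (Pool.Agent.TH387.SH.TF d \ T).card := by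
      rw [Finset.card_sdiff_of_subset h1', Pool.Agent.TH387.SH.card_TF, h2]
      omega
    obtain ⟨U, h5, h6⟩ := Finset.exists_subset_card_eq h4
    have h7 := Emp_union h3 U
    rw [h6] at h7
    refine ⟨T ∪ U, ?_, ?_, ?_⟩
    · rw [← Pool.Agent.TH387.SH.coe_TF]
      have : T ∪ U ⊆ Pool.Agent.TH387.SH.TF d :=
        Finset.union_subset h1' (h5.trans Finset.sdiff_subset)
      exact_mod_cast this
    · rw [Finset.card_union_of_disjoint, h2, h6, cond_elim, cond_elim, cond_unit, cond_one]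
      · ring
      · refine Finset.disjoint_left.2 fun x hx hxU => ?_
        exact (Finset.mem_sdiff.1 (h5 hxU)).2 hx
    · refine Emp_emb (Sum.elim (Sum.map id Sum.inl) (fun j => Sum.inr (Sum.inr j))) ?_ ?_ h7
      · rintro ((i | i) | i) ((j | j) | j) h <;> simp_all
      · rintro ((i | i) | i) <;> simp
  have hv' : (d + 2).choose 2 ≤ cond w + cond (Sum.elim w' (fun _ : Fin k => 1)) := by
    rw [cond_elim, cond_one]
    omega
  have h8 := glue_E_of g2 g3 hδ hPS hPE hFS' hFE' hc hv'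
  have h9 : Emp (Sum.elim (Sum.elim w w') (fun _ : Fin k => 1)) (TZ d) := by
    refine Emp_emb (Sum.elim (fun i => Sum.inl (Sum.inl i))
      (Sum.elim (fun j => Sum.inl (Sum.inr j)) (fun j => Sum.inr j))) ?_ ?_ h8
    · rintro (i | (i | i)) (j | (j | j)) h <;> simp_all
    · rintro (i | (i | i)) <;> simp
  rw [← Pool.Agent.TH387.SH.coe_TF] at h9 ⊢
  refine Sur_of_Emp k ?_ h9
  rw [Pool.Agent.TH387.SH.card_TF, cond_elim]
  omega

end G4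

end Pool.Agent.TH603.SX
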